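import Pool.Agent.helper78.MA.O3
import Pool.Agent.helper46.MA.B1

set_option autoImplicit false

open MeasureTheory Set Filter Topology Complex
open scoped ContDiff Real

namespace MAP

noncomputable section

theorem O2_lap_quad (a k : ℝ) (z y ξ : C2) :
    lap (fun y => a + k * nsq (y - z)) y ξ = 4 * k * nsq ξ := by
  have h1 : ∀ y : C2, HasFDerivAt (fun y => a + k * nsq (y - z)) (k • B1aux.nsqL (y - z)) y := by
    intro y
    have a1 : HasFDerivAt (fun y : C2 => y - z) (ContinuousLinearMap.id ℝ C2) y :=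
      (hasFDerivAt_id y).sub_const z
    have a2 := (B1aux.hasFDerivAt_nsq (y - z)).comp y a1
    rw [ContinuousLinearMap.comp_id] at a2
    exact (a2.const_mul k).const_add a
  have h2 : fderiv ℝ (fun y => a + k * nsq (y - z)) = fun y => k • B1aux.nsqL (y - z) :=
    funext fun y => (h1 y).fderiv
  have h3 : HasFDerivAt (fun y : C2 => k • B1aux.nsqL (y - z)) (k • B1aux.nsqL) y := by
    have a1 : HasFDerivAt (fun y : C2 => y - z) (ContinuousLinearMap.id ℝ C2) y :=
      (hasFDerivAt_id y).sub_const z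
    have a2 := (B1aux.nsqL.hasFDerivAt (x := y - z)).comp y a1
    rw [ContinuousLinearMap.comp_id] at a2
    exact a2.const_smul k
  have h4 : fderiv ℝ (fderiv ℝ (fun y => a + k * nsq (y - z))) y = k • B1aux.nsqL := by
    rw [h2]
    exact h3.fderiv
  unfold lap D2
  rw [h4]
  simp only [smul_apply, B1aux.nsqL_apply]
  simp only [Prod.smul_fst, Prod.smul_snd, real_inner_self_eq_norm_sq, nsq, smul_eq_mul, norm_mul,
    norm_I, one_mul]
  ring

theorem O2_contDiff (a k : ℝ) (z : C2) : ContDiff ℝ 2 (fun y => a + k * nsq (y - z)) :=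
  contDiff_const.add (contDiff_const.mul (B1aux.contDiff_nsq.comp (contDiff_id.sub contDiff_const)))

/-- O2 -/
theorem O2 (h9 : B9_stmt) (h7 : A7_stmt) (h8 : A8_stmt) : O2_stmt := by
  intro b o c r u hr hbc hbp hoc hu humax y hy hlt
  obtain ⟨huc, hup, huo, hub⟩ := hu
  have hnhds : cbal c r ∈ 𝓝 y :=
    Filter.mem_of_superset ((O4_bal_open c r).mem_nhds hy) (O4_sub c r)
  set m1 : ℝ := (2 * u y + o y) / 3 with hm1
  set m2 : ℝ := (u y + 2 * o y) / 3 with hm2
  have hm12 : m1 < m2 := by rw [hm1, hm2]; linarith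
  have hev : ∀ᶠ x in 𝓝 y, x ∈ bal c r ∧ u x < m1 ∧ m2 < o x := by
    have hb : ∀ᶠ x in 𝓝 y, x ∈ bal c r := (O4_bal_open c r).mem_nhds hy
    refine hb.and (Filter.Eventually.and ?_ ?_)
    · exact (huc.continuousAt hnhds).eventually_lt_const (by rw [hm1]; linarith)
    · exact (hoc.continuousAt hnhds).eventually_const_lt (by rw [hm2]; linarith)
  obtain ⟨δ, hδ, hball⟩ := Metric.eventually_nhds_iff_ball.1 hev
  set s : ℝ := δ / 2 with hs
  have hs0 : 0 < s := by rw [hs]; positivity
  have hsub : ∀ x ∈ cbal y s, x ∈ bal c r ∧ u x < m1 ∧ m2 < o x := by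
    intro x hx
    apply hball
    rw [Metric.mem_ball, dist_eq_norm]
    have hx' : nsq (x - y) ≤ s ^ 2 := hx
    have h1 := O3_norm_sq_le_nsq (x - y)
    have h2 := norm_nonneg (x - y)
    have h3 : ‖x - y‖ ≤ s := by nlinarith
    rw [hs] at h3
    linarith
  have hcb : cbal y s ⊆ bal c r := fun x hx => (hsub x hx).1
  have hsc : sph y s ⊆ cbal y s := fun x hx => le_of_eq (show nsq (x - y) = s ^ 2 from hx)
  obtain ⟨h, hPer, hMA⟩ := h9 u y s hs0 (huc.mono ((hsc.trans hcb).trans (O4_sub c r)))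
  obtain ⟨hhc, hhp, hhs, hhmax⟩ := hPer
  have hule : ∀ x ∈ cbal y s, u x ≤ h x :=
    hhmax u ⟨huc.mono (hcb.trans (O4_sub c r)), O4_psh hup ((O4_sub y s).trans hcb),
      fun x _ => le_rfl⟩
  -- barrier
  set ε : ℝ := (m2 - m1) / s ^ 2 with hε
  have hs2 : 0 < s ^ 2 := by positivity
  have hεpos : 0 < ε := div_pos (by linarith) hs2
  have hεs : ε * s ^ 2 = m2 - m1 := by rw [hε]; field_simp
  have hbar : ∀ x ∈ cbal y s, h x ≤ (m1 + ε * s ^ 2) + (-ε) * nsq (x - y) := by
    refine h8 y s h (fun x => (m1 + ε * s ^ 2) + (-ε) * nsq (x - y)) hs0 hhp hhc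
      (O2_contDiff _ _ _).continuous.continuousOn (O2_contDiff _ _ _).contDiffOn ?_ ?_
    · intro x _
      refine ⟨e1, ?_⟩
      rw [O2_lap_quad]
      have : nsq e1 = 1 := by simp [nsq, e1]
      rw [this]
      linarith
    · intro x hx
      rw [hhs x hx]
      have hx' : nsq (x - y) = s ^ 2 := hx
      simp only [hx']
      have := (hsub x (hsc hx)).2.1
      linarith
  have hho : ∀ x ∈ cbal y s, h x ≤ o x := by
    intro x hx
    have h1 := hbar x hx
    have h2 : 0 ≤ nsq (x - y) := B1aux.nsq_nonneg _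
    have h3 := (hsub x hx).2.2
    nlinarith
  classical
  set v : C2 → ℝ := fun x => if x ∈ cbal y s then h x else u x with hv
  have hv1 : ∀ x ∈ cbal y s, v x = h x := by
    intro x hx
    rw [hv]
    exact if_pos hx
  have hv2 : ∀ x, x ∉ bal y s → v x = u x := by
    intro x hx
    by_cases hx' : x ∈ cbal y s
    · have hxs : x ∈ sph y s := by
        have h7 : nsq (x - y) ≤ s ^ 2 := hx'
        have h8 : ¬ nsq (x - y) < s ^ 2 := fun h9 => hx h9
        exact le_antisymm h7 (not_lt.1 h8)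
      rw [hv1 x hx', hhs x hxs]
    · rw [hv]
      exact if_neg hx'
  have huv : ∀ x, u x ≤ v x := by
    intro x
    by_cases hx' : x ∈ cbal y s
    · rw [hv1 x hx']
      exact hule x hx'
    · rw [hv2 x (fun h3 => hx' (O4_sub y s h3))]
  have hvc : ContinuousOn v (cbal c r) := by
    have hun : cbal c r = cbal y s ∪ (cbal c r ∩ (bal y s)ᶜ) := by
      ext x
      constructor
      · intro hx
        by_cases hx' : x ∈ bal y s
        · exact Or.inl (O4_sub y s hx')
        · exact Or.inr ⟨hx, hx'⟩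
      · rintro (hx | hx)
        · exact O4_sub c r (hcb hx)
        · exact hx.1
    rw [hun]
    refine ContinuousOn.union_of_isClosed ?_ ?_ (O3_cbal_closed y s)
      ((O3_cbal_closed c r).inter (O4_bal_open y s).isClosed_compl)
    · exact hhc.congr hv1
    · exact (huc.mono inter_subset_left).congr (fun x hx => hv2 x hx.2)
  have hvp : PshOn (bal c r) v := by
    refine h7 (bal c r) (bal y s) u v (O4_bal_open c r) (O4_bal_open y s)
      ((O4_sub y s).trans hcb) hup (hvc.mono (O4_sub c r)) ?_ (fun x _ => huv x)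
      (fun x _ hx => hv2 x hx)
    refine ⟨hhp.1.congr (fun x hx => hv1 x (O4_sub y s hx)), ?_⟩
    intro x ξ hd
    have hx : x ∈ bal y s := hd ⟨0, by simp, by simp⟩
    rw [hv1 x (O4_sub y s hx)]
    refine (hhp.2 x ξ hd).trans (le_of_eq ?_)
    unfold mean
    congr 1
    refine intervalIntegral.integral_congr fun θ _ => ?_
    refine (hv1 _ (O4_sub y s (hd ⟨cexp (θ * I), ?_, rfl⟩))).symm
    rw [Complex.norm_exp_ofReal_mul_I]
  have hvObs : v ∈ Obs b o c r := by
    refine ⟨hvc, hvp, ?_, ?_⟩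
    · intro x hx
      by_cases hx' : x ∈ cbal y s
      · rw [hv1 x hx']
        exact hho x hx'
      · rw [hv2 x (fun h3 => hx' (O4_sub y s h3))]
        exact huo x hx
    · intro x hx
      have hx' : x ∉ bal y s := by
        intro h3
        have h4 : nsq (x - c) < r ^ 2 := hcb (O4_sub y s h3)
        have h5 : nsq (x - c) = r ^ 2 := hx
        linarith
      rw [hv2 x hx']
      exact hub x hx
  have heq : ∀ x ∈ cbal y s, h x = u x := by
    intro x hx
    refine le_antisymm ?_ (hule x hx)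
    have := humax v hvObs x (O4_sub c r (hcb hx))
    rwa [hv1 x hx] at this
  refine ⟨s, hs0, hcb, ?_⟩
  intro k hk1 hk2 hk3 w hw1 hw2 hw3
  refine hMA k hk1 hk2 hk3 w hw1 hw2 ?_
  intro K' hK1 hK2
  exact (hw3 K' hK1 hK2).congr_right (fun x hx => (heq x (O4_sub y s (hK1 hx))).symm)

end

end MAP
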