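import Pool.Agent.helper78.MA.O4

set_option autoImplicit false

open MeasureTheory Set Filter Topology Complex
open scoped ContDiff Real

namespace MAP

noncomputable section

theorem O3_norm_sq_le_nsq (x : C2) : ‖x‖ ^ 2 ≤ nsq x := by
  unfold nsq
  rw [Prod.norm_def]
  rcases max_choice ‖x.1‖ ‖x.2‖ with h | h <;> rw [h]
  · nlinarith [sq_nonneg ‖x.2‖]
  · nlinarith [sq_nonneg ‖x.1‖]

theorem O3_cbal_closed (c : C2) (r : ℝ) : IsClosed (cbal c r) :=
  isClosed_le (O4_nsq_cont c) continuous_const

theorem O3_cbal_compact (c : C2) (r : ℝ) (hr : 0 < r) : IsCompact (cbal c r) := by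
  refine Metric.isCompact_of_isClosed_isBounded (O3_cbal_closed c r) ?_
  refine (Metric.isBounded_closedBall (x := c) (r := r)).subset ?_
  intro x hx
  have hx' : nsq (x - c) ≤ r ^ 2 := hx
  rw [Metric.mem_closedBall, dist_eq_norm]
  have h1 := O3_norm_sq_le_nsq (x - c)
  have h2 := norm_nonneg (x - c)
  nlinarith

/-- O3 -/
theorem O3 (h7 : A7_stmt) (hS3 : S3_stmt) : O3_stmt := by
  intro X _ _ _ K i c r w hr hsub hwc hwp v hv hvw hws
  have hbal : bal c r ⊆ (K.e i).target := (O4_sub c r).trans hsub
  have hin : ∀ x : X, x ∈ (K.e i).source → K.e i x ∈ cbal c r →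
      K.glue i c r w v x = w (K.e i x) - K.ρ i (K.e i x) := by
    intro x hx hx'
    simp only [KS.glue]
    rw [if_pos ⟨hx, hx'⟩]
  have hout : ∀ x : X, ¬ (x ∈ (K.e i).source ∧ K.e i x ∈ cbal c r) → K.glue i c r w v x = v x := by
    intro x hx
    simp only [KS.glue]
    rw [if_neg hx]
  have hoff : ∀ x, ¬ (x ∈ (K.e i).source ∧ K.e i x ∈ bal c r) → K.glue i c r w v x = v x := by
    intro x hx
    by_cases hx' : x ∈ (K.e i).source ∧ K.e i x ∈ cbal c r
    · have hsph : K.e i x ∈ sph c r := by
        have h7 : nsq (K.e i x - c) ≤ r ^ 2 := hx'.2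
        have h8 : ¬ nsq (K.e i x - c) < r ^ 2 := fun h9 => hx ⟨hx'.1, h9⟩
        exact le_antisymm h7 (not_lt.1 h8)
      rw [hin x hx'.1 hx'.2, hws _ hsph]
      simp only [KS.pot]
      rw [(K.e i).left_inv hx'.1]
      ring
    · exact hout x hx'
  -- the closed set F and the open set Om
  set F : Set X := {x | x ∈ (K.e i).source ∧ K.e i x ∈ cbal c r} with hF
  set Om : Set X := {x | x ∈ (K.e i).source ∧ K.e i x ∈ bal c r} with hOm
  have hFclosed : IsClosed F := by
    have h1 : F = (K.e i).symm '' (cbal c r) := by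
      ext x
      constructor
      · rintro ⟨h2, h3⟩
        exact ⟨K.e i x, h3, (K.e i).left_inv h2⟩
      · rintro ⟨y, hy, rfl⟩
        exact ⟨(K.e i).map_target (hsub hy), by rw [(K.e i).right_inv (hsub hy)]; exact hy⟩
    rw [h1]
    exact ((O3_cbal_compact c r hr).image_of_continuousOn
      ((K.e i).continuousOn_symm.mono hsub)).isClosed
  have hOmopen : IsOpen Om := (K.e i).isOpen_inter_preimage (O4_bal_open c r)
  have hcontρ : ContinuousOn (K.ρ i) (K.e i).target := (K.ρ_smooth i).continuousOn
  have hcont : Continuous (K.glue i c r w v) := by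
    rw [← continuousOn_univ]
    have hun : (Set.univ : Set X) = F ∪ Omᶜ := by
      ext x
      simp only [mem_univ, mem_union, mem_compl_iff, true_iff]
      by_cases hx : x ∈ Om
      · exact Or.inl ⟨hx.1, O4_sub c r hx.2⟩
      · exact Or.inr hx
    rw [hun]
    refine ContinuousOn.union_of_isClosed ?_ ?_ hFclosed hOmopen.isClosed_compl
    · have h1 : ContinuousOn (fun x => w (K.e i x) - K.ρ i (K.e i x)) F := by
        have h2 : ContinuousOn (K.e i) F := (K.e i).continuousOn.mono (fun x hx => hx.1)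
        exact (hwc.comp h2 (fun x hx => hx.2)).sub (hcontρ.comp h2 (fun x hx => hsub hx.2))
      exact h1.congr (fun x hx => hin x hx.1 hx.2)
    · exact (hv.1.continuousOn).congr (fun x hx => hoff x hx)
  refine (hS3 X K).2.2.2.2.2.2.1 _ hcont ?_
  intro x
  by_cases hx : x ∈ F
  · refine ⟨i, hx.1, (K.e i).target, (K.e i).open_target, (K.e i).map_source hx.1, subset_rfl, ?_⟩
    refine h7 (K.e i).target (bal c r) (K.pot i v) _ (K.e i).open_target (O4_bal_open c r) hbal
      (hv.2 i) ?_ ?_ ?_ ?_
    · exact hcontρ.add (hcont.comp_continuousOn (K.e i).continuousOn_symm)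
    · have heq : ∀ y ∈ bal c r, K.pot i (K.glue i c r w v) y = w y := by
        intro y hy
        have hyt := hbal hy
        simp only [KS.pot]
        rw [hin _ ((K.e i).map_target hyt) (by rw [(K.e i).right_inv hyt]; exact O4_sub c r hy),
          (K.e i).right_inv hyt]
        ring
      refine ⟨(hwc.mono (O4_sub c r)).congr heq, ?_⟩
      intro y ξ hd
      have hy : y ∈ bal c r := hd ⟨0, by simp, by simp⟩
      rw [heq y hy]
      refine (hwp.2 y ξ hd).trans (le_of_eq ?_)
      unfold mean
      congr 1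
      refine intervalIntegral.integral_congr fun θ _ => ?_
      refine (heq _ (hd ⟨cexp (θ * I), ?_, rfl⟩)).symm
      rw [Complex.norm_exp_ofReal_mul_I]
    · intro y hy
      by_cases hy' : y ∈ cbal c r
      · have h1 := hvw y hy'
        have h2 : K.pot i (K.glue i c r w v) y = w y := by
          simp only [KS.pot]
          rw [hin _ ((K.e i).map_target hy) (by rw [(K.e i).right_inv hy]; exact hy'),
            (K.e i).right_inv hy]
          ring
        rw [h2]; exact h1
      · have h2 : K.pot i (K.glue i c r w v) y = K.pot i v y := by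
          simp only [KS.pot]
          rw [hout _ (fun h3 => hy' (by have := h3.2; rwa [(K.e i).right_inv hy] at this))]
        rw [h2]
    · intro y hy hy'
      simp only [KS.pot]
      rw [hoff _ (fun h3 => hy' (by have := h3.2; rwa [(K.e i).right_inv hy] at this))]
  · obtain ⟨j, hj, -⟩ := K.cover x
    refine ⟨j, hj, (K.e j).target ∩ (K.e j).symm ⁻¹' Fᶜ,
      (K.e j).symm.isOpen_inter_preimage hFclosed.isOpen_compl, ⟨(K.e j).map_source hj, ?_⟩,
      inter_subset_left, ?_⟩
    · rw [mem_preimage, (K.e j).left_inv hj]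
      exact hx
    · have heq : ∀ y ∈ (K.e j).target ∩ (K.e j).symm ⁻¹' Fᶜ,
          K.pot j (K.glue i c r w v) y = K.pot j v y := by
        intro y hy
        simp only [KS.pot]
        rw [hout _ hy.2]
      have hp := O4_psh (hv.2 j) (inter_subset_left : (K.e j).target ∩ (K.e j).symm ⁻¹' Fᶜ ⊆ _)
      refine ⟨hp.1.congr heq, ?_⟩
      intro y ξ hd
      have hy : y ∈ (K.e j).target ∩ (K.e j).symm ⁻¹' Fᶜ := hd ⟨0, by simp, by simp⟩
      rw [heq y hy]
      refine (hp.2 y ξ hd).trans (le_of_eq ?_)
      unfold mean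
      congr 1
      refine intervalIntegral.integral_congr fun θ _ => ?_
      refine (heq _ (hd ⟨cexp (θ * I), ?_, rfl⟩)).symm
      rw [Complex.norm_exp_ofReal_mul_I]

end

end MAP
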