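import Pool.Agent.helper50.MA.Spec2

set_option autoImplicit false

open MeasureTheory Set Filter Topology Complex
open scoped ContDiff Real

namespace MAP

noncomputable section

theorem O4_nsq_cont (c : C2) : Continuous (fun x : C2 => nsq (x - c)) := by
  unfold nsq
  exact (((continuous_fst.comp (continuous_id.sub continuous_const)).norm.pow 2).add
    ((continuous_snd.comp (continuous_id.sub continuous_const)).norm.pow 2))

theorem O4_bal_open (c : C2) (r : ℝ) : IsOpen (bal c r) :=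
  isOpen_lt (O4_nsq_cont c) continuous_const

theorem O4_sub (c : C2) (r : ℝ) : bal c r ⊆ cbal c r := fun x hx =>
  show nsq (x - c) ≤ r ^ 2 from le_of_lt (show nsq (x - c) < r ^ 2 from hx)

theorem O4_psh {U V : Set C2} {u : C2 → ℝ} (h : PshOn U u) (hV : V ⊆ U) : PshOn V u :=
  ⟨h.1.mono hV, fun x ξ hd => h.2 x ξ (hd.trans hV)⟩

theorem O4_nsq_smul (t : ℝ) (z : C2) : nsq (t • z) = t ^ 2 * nsq z := by
  unfold nsq
  rw [Prod.smul_fst, Prod.smul_snd, norm_smul, norm_smul, Real.norm_eq_abs, mul_pow, mul_pow, sq_abs]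
  ring

theorem O4_cbal_closure (c : C2) (r : ℝ) (hr : 0 < r) : cbal c r ⊆ closure (bal c r) := by
  intro y hy
  have hy' : nsq (y - c) ≤ r ^ 2 := hy
  rw [mem_closure_iff_seq_limit]
  refine ⟨fun n : ℕ => c + ((1 - 1 / ((n : ℝ) + 1)) : ℝ) • (y - c), ?_, ?_⟩
  · intro n
    show nsq (c + ((1 - 1 / ((n : ℝ) + 1)) : ℝ) • (y - c) - c) < r ^ 2
    rw [add_sub_cancel_left, O4_nsq_smul]
    have h1 : (0 : ℝ) < 1 / ((n : ℝ) + 1) := by positivity
    have h2 : 1 / ((n : ℝ) + 1) ≤ 1 := by
      rw [div_le_one (by positivity)]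
      have : (0 : ℝ) ≤ n := Nat.cast_nonneg n
      linarith
    have h3 : (1 - 1 / ((n : ℝ) + 1)) ^ 2 < 1 := by nlinarith
    have h4 : 0 ≤ nsq (y - c) := by unfold nsq; positivity
    have h5 : 0 < r ^ 2 := by positivity
    have h6 : 0 ≤ (1 - 1 / ((n : ℝ) + 1)) ^ 2 := sq_nonneg _
    calc (1 - 1 / ((n : ℝ) + 1)) ^ 2 * nsq (y - c) ≤ (1 - 1 / ((n : ℝ) + 1)) ^ 2 * r ^ 2 :=
          mul_le_mul_of_nonneg_left hy' h6
      _ < 1 * r ^ 2 := mul_lt_mul_of_pos_right h3 h5
      _ = r ^ 2 := one_mul _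
  · have h1 : Tendsto (fun n : ℕ => (1 - 1 / ((n : ℝ) + 1) : ℝ)) atTop (𝓝 (1 - 0)) :=
      tendsto_const_nhds.sub tendsto_one_div_add_atTop_nhds_zero_nat
    have h2 : Tendsto (fun n : ℕ => c + ((1 - 1 / ((n : ℝ) + 1)) : ℝ) • (y - c)) atTop
        (𝓝 (c + (1 - 0 : ℝ) • (y - c))) :=
      tendsto_const_nhds.add (h1.smul tendsto_const_nhds)
    have h3 : c + (1 - 0 : ℝ) • (y - c) = y := by rw [sub_zero, one_smul]; abel
    rwa [h3] at h2

theorem O4 (h1 : O1_stmt) (h2 : O2_stmt) (h3 : O3_stmt) (h6 : D6_stmt) : O4_stmt := by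
  intro X _ _ _ _ _ _ K Ω hΩ
  obtain ⟨i, c, r, hr, hsub, rfl⟩ := hΩ
  have hopen : IsOpen {x | x ∈ (K.e i).source ∧ K.e i x ∈ bal c r} :=
    (K.e i).isOpen_inter_preimage (O4_bal_open c r)
  refine ⟨hopen, ?_⟩
  intro ψ hψ o ho hψo
  have hbal : bal c r ⊆ (K.e i).target := (O4_sub c r).trans hsub
  have hcont : ∀ f : X → ℝ, Continuous f → ContinuousOn (K.pot i f) (K.e i).target := by
    intro f hf
    exact (K.ρ_smooth i).continuousOn.add (hf.comp_continuousOn (K.e i).continuousOn_symm)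
  -- points of the closed ball lie in the closure
  have hclos : ∀ y ∈ cbal c r, (K.e i).symm y ∈
      closure {x | x ∈ (K.e i).source ∧ K.e i x ∈ bal c r} := by
    intro y hy
    have hyt := hsub hy
    have hc1 : ContinuousWithinAt (K.e i).symm (bal c r) y :=
      ((K.e i).continuousAt_symm hyt).continuousWithinAt
    refine hc1.mem_closure (O4_cbal_closure c r hr hy) ?_
    intro z hz
    exact ⟨(K.e i).map_target (hbal hz), by rw [(K.e i).right_inv (hbal hz)]; exact hz⟩
  have hbc : ContinuousOn (K.pot i ψ) (cbal c r) := (hcont ψ hψ.1).mono hsub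
  have hoc : ContinuousOn (K.pot i o) (cbal c r) := (hcont o ho).mono hsub
  have hbp : PshOn (bal c r) (K.pot i ψ) := O4_psh (hψ.2 i) hbal
  have hbo : ∀ y ∈ cbal c r, K.pot i ψ y ≤ K.pot i o y := by
    intro y hy
    have := hψo _ (hclos y hy)
    simp only [KS.pot]
    linarith
  obtain ⟨u, huObs, hbu, hus, humax⟩ := h1 (K.pot i ψ) (K.pot i o) c r hr hbc hbp hoc hbo
  have hu1 : ContinuousOn u (cbal c r) := huObs.1
  have hu2 : PshOn (bal c r) u := huObs.2.1
  have hu3 : ∀ y ∈ cbal c r, u y ≤ K.pot i o y := huObs.2.2.1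
  have haC := h3 X K i c r u hr hsub hu1 hu2 ψ hψ hbu hus
  have hin : ∀ x : X, x ∈ (K.e i).source → K.e i x ∈ cbal c r →
      K.glue i c r u ψ x = u (K.e i x) - K.ρ i (K.e i x) := by
    intro x hx hx'
    simp only [KS.glue]
    rw [if_pos ⟨hx, hx'⟩]
  have hout : ∀ x : X, ¬ (x ∈ (K.e i).source ∧ K.e i x ∈ cbal c r) → K.glue i c r u ψ x = ψ x := by
    intro x hx
    simp only [KS.glue]
    rw [if_neg hx]
  have hpotψ : ∀ (f : X → ℝ) (x : X), x ∈ (K.e i).source →
      K.pot i f (K.e i x) = K.ρ i (K.e i x) + f x := by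
    intro f x hx
    simp only [KS.pot]
    rw [(K.e i).left_inv hx]
  have hge : ∀ x, ψ x ≤ K.glue i c r u ψ x := by
    intro x
    by_cases hx : x ∈ (K.e i).source ∧ K.e i x ∈ cbal c r
    · rw [hin x hx.1 hx.2]
      have := hbu _ hx.2
      rw [hpotψ ψ x hx.1] at this
      linarith
    · rw [hout x hx]
  have hoff : ∀ x, x ∉ {x | x ∈ (K.e i).source ∧ K.e i x ∈ bal c r} →
      K.glue i c r u ψ x = ψ x := by
    intro x hx
    by_cases hx' : x ∈ (K.e i).source ∧ K.e i x ∈ cbal c r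
    · have hsph : K.e i x ∈ sph c r := by
        have h7 : nsq (K.e i x - c) ≤ r ^ 2 := hx'.2
        have h8 : ¬ nsq (K.e i x - c) < r ^ 2 := fun h9 => hx ⟨hx'.1, h9⟩
        exact le_antisymm h7 (not_lt.1 h8)
      rw [hin x hx'.1 hx'.2, hus _ hsph, hpotψ ψ x hx'.1]
      ring
    · exact hout x hx'
  refine ⟨K.glue i c r u ψ, haC, hge, hoff, ?_, ?_, ?_⟩
  · rintro x ⟨hx, hx'⟩
    have hx'' := O4_sub c r hx'
    rw [hin x hx hx'']
    have := hu3 _ hx''
    rw [hpotψ o x hx] at this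
    linarith
  · intro v hv hv1 hv2 x
    by_cases hx : x ∈ {x | x ∈ (K.e i).source ∧ K.e i x ∈ bal c r}
    · have hvObs : K.pot i v ∈ Obs (K.pot i ψ) (K.pot i o) c r := by
        have hs : ∀ y ∈ sph c r, v ((K.e i).symm y) ≤ ψ ((K.e i).symm y) := by
          intro y hy
          apply hv1
          rintro ⟨h7, h8⟩
          have hyc : y ∈ cbal c r := le_of_eq hy
          rw [(K.e i).right_inv (hsub hyc)] at h8
          have hy' : nsq (y - c) = r ^ 2 := hy
          have h8' : nsq (y - c) < r ^ 2 := h8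
          linarith
        refine ⟨(hcont v hv.1).mono hsub, O4_psh (hv.2 i) hbal, ?_, ?_⟩
        · intro y hy
          simp only [KS.pot]
          by_cases hy' : y ∈ bal c r
          · have := hv2 ((K.e i).symm y) ⟨(K.e i).map_target (hsub hy), by
              rw [(K.e i).right_inv (hsub hy)]; exact hy'⟩
            linarith
          · have hsp : y ∈ sph c r := by
              have h7 : nsq (y - c) ≤ r ^ 2 := hy
              exact le_antisymm h7 (not_lt.1 hy')
            have h9 := hs y hsp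
            have h10 := hψo _ (hclos y hy)
            linarith
        · intro y hy
          simp only [KS.pot]
          have := hs y hy
          linarith
      have hx'' := O4_sub c r hx.2
      have h11 := humax _ hvObs _ hx''
      rw [hpotψ v x hx.1] at h11
      rw [hin x hx.1 hx'']
      linarith
    · rw [hoff x hx]
      exact hv1 x hx
  · apply measure_null_of_locally_null
    rintro x ⟨⟨hx, hx'⟩, hlt⟩
    have hx'' := O4_sub c r hx'
    rw [hin x hx hx''] at hlt
    have hlt' : u (K.e i x) < K.pot i o (K.e i x) := by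
      rw [hpotψ o x hx]
      linarith
    obtain ⟨s, hs0, hsb, hMA⟩ := h2 (K.pot i ψ) (K.pot i o) c r u hr hbc hbp hoc huObs humax
      (K.e i x) hx' hlt'
    have heq : ∀ y ∈ bal (K.e i x) s, K.pot i (K.glue i c r u ψ) y = u y := by
      intro y hy
      have hyb : y ∈ bal c r := hsb (O4_sub _ _ hy)
      have hyc := O4_sub c r hyb
      have hyt := hsub hyc
      simp only [KS.pot]
      rw [hin _ ((K.e i).map_target hyt) (by rw [(K.e i).right_inv hyt]; exact hyc),
        (K.e i).right_inv hyt]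
      ring
    have hMA' : MAzero (bal (K.e i x) s) (K.pot i (K.glue i c r u ψ)) := by
      intro h hh1 hh2 hh3 w hw1 hw2 hw3
      refine hMA h hh1 hh2 hh3 w hw1 hw2 ?_
      intro K' hK1 hK2
      exact (hw3 K' hK1 hK2).congr_right (fun y hy => heq y (hK1 hy))
    have hnull := h6 X K _ haC i (K.e i x) s hs0 (hsb.trans hbal) hMA'
    refine ⟨{x' | x' ∈ (K.e i).source ∧ K.e i x' ∈ bal (K.e i x) s}, ?_, hnull⟩
    apply mem_nhdsWithin_of_mem_nhds
    refine ((K.e i).isOpen_inter_preimage (O4_bal_open (K.e i x) s)).mem_nhds ⟨hx, ?_⟩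
    show nsq (K.e i x - K.e i x) < s ^ 2
    have h0 : nsq (0 : C2) = 0 := by simp [nsq]
    rw [sub_self, h0]
    positivity

end

end MAP
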