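import Pool.Agent.helper50.MA.Spec2

set_option autoImplicit false

open MeasureTheory Set Filter Topology Complex
open scoped ContDiff Real

namespace MAP

noncomputable section

theorem Z2_add_cont (B : ℝ) {ι : Type} {l : Filter ι} {g : ι → ℝ} {a : EReal}
    (h : Tendsto (fun j => ((g j : ℝ) : EReal)) l (𝓝 a)) :
    Tendsto (fun j => ((g j + B : ℝ) : EReal)) l (𝓝 (a + (B : EReal))) := by
  have h1 : ContinuousAt (fun p : EReal × EReal => p.1 + p.2) (a, (B : EReal)) :=
    EReal.continuousAt_add (Or.inr (EReal.coe_ne_bot B)) (Or.inr (EReal.coe_ne_top B))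
  have h2 : Tendsto (fun j => (((g j : ℝ) : EReal), (B : EReal))) l (𝓝 (a, (B : EReal))) :=
    h.prodMk_nhds tendsto_const_nhds
  have h3 := h1.tendsto.comp h2
  refine h3.congr fun j => ?_
  show ((g j : ℝ) : EReal) + (B : EReal) = ((g j + B : ℝ) : EReal)
  rw [EReal.coe_add]

/-- Z2 -/
theorem Z2 (hZ1 : Z1_stmt) (hF12 : F12_stmt) (hG1 : G1_stmt) (hG2 : G2_stmt) (hG4 : G4_stmt)
    (hG5 : G5_stmt) (hH1 : H1_stmt) (hD1 : D1_stmt) : Z2_stmt := by
  intro X _ _ _ _ _ _ _ K μ hμ hp φ hφ hex hall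
  obtain ⟨p, hp⟩ := hp
  obtain ⟨T, hPS, hC0, hM⟩ := hZ1 X K.toKS
  obtain ⟨hS1, hS2, hS3⟩ := hG1 X K
  obtain ⟨c, hc⟩ := hG2 X K
  obtain ⟨-, hD⟩ := hD1 X K.toKS
  have h0 : (fun _ : X => (0 : ℝ)) ∈ K.toKS.PS := by rw [← hPS]; exact T.const_ps 0
  have hMs : ∀ f ∈ K.toKS.PS, ∀ g ∈ K.toKS.PS, T.M f g = K.toKS.Ms f g := by
    intro f hf g hg
    rw [hM]; exact hD f hf g hg
  let cd : CurveD T μ :=
    { S := K.S
      S_cont := hS1
      S_nonneg := hS2
      S_le := K.S_le
      soft_mem := fun Λ hΛ => T.ps_c0 (by rw [hPS]; exact hS3 Λ hΛ)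
      c := c
      L1 := by
        intro Λ hΛ
        rw [hMs _ h0 _ h0]
        exact hc Λ hΛ
      fin := hμ.1
      PL := by
        intro h hh
        refine (hG4 X K μ hμ h hh).congr' ?_
        filter_upwards [eventually_ge_atTop (1 : ℝ)] with Λ hΛ
        rw [hMs _ (hS3 Λ hΛ) _ h0]
      supp := hμ.2.1
      p := p
      pos := hG5 X K μ hμ p hp }
  obtain ⟨f, hf, hdec⟩ := hex
  -- upper bound of f 0
  have hf0c : Continuous (f 0) := T.cont _ (T.ps_c0 (by rw [hPS]; exact hf 0))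
  obtain ⟨B, hB⟩ : ∃ B : ℝ, ∀ x, f 0 x ≤ B := by
    obtain ⟨B, hB⟩ := (isCompact_range hf0c).bddAbove
    exact ⟨B, fun x => hB ⟨x, rfl⟩⟩
  have hle : ∀ j x, f j x ≤ B := by
    intro j x
    induction j with
    | zero => exact hB x
    | succ j ih => exact (hdec.1 j x).trans ih
  -- DMAh for the shifted function
  have hPSadd : ∀ g ∈ T.PS, ∀ b : ℝ, (fun x => g x + b) ∈ T.PS → T.M (fun x => g x + b) (fun x => g x + b) = T.M g g := by
    intro g hg b hgb
    have hg0 := T.ps_c0 hg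
    have hgb0 := T.add_const g hg0 b
    rw [T.const g hg0 _ hgb0 b, T.symm g hg0 _ hgb0, T.const g hg0 g hg0 b]
  have hPSadd' : ∀ g ∈ T.PS, ∀ b : ℝ, (fun x => g x + b) ∈ T.PS := by
    intro g hg b
    rw [hPS] at hg ⊢
    refine ⟨fun i => (hg.1 i).add contDiffOn_const, ?_⟩
    intro i y hy ξ
    have h5 : lap (K.toKS.pot i (fun x => g x + b)) y ξ = lap (K.toKS.pot i g) y ξ := by
      have h6 : K.toKS.pot i (fun x => g x + b) = fun y => K.toKS.pot i g y + b := by
        funext z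
        simp only [KS.pot]
        ring
      have h7 : fderiv ℝ (fun y => K.toKS.pot i g y + b) = fderiv ℝ (K.toKS.pot i g) := by
        funext z
        rw [fderiv_add_const]
      simp only [lap, D2]
      rw [h6, h7]
    rw [h5]
    exact hg.2 i y hy ξ
  have hDMA : DMAh T (fun x => φ x + ((-B : ℝ) : EReal)) μ := by
    intro g hg hgdec h hh
    have hg' : ∀ j, (fun x => g j x + B) ∈ K.toKS.PS := by
      intro j
      rw [← hPS]
      exact hPSadd' _ (hg j) B
    have hdec' : DecTo (fun j x => g j x + B) φ := by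
      refine ⟨fun j x => by simpa using hgdec.1 j x, fun x => ?_⟩
      have h8 := Z2_add_cont B (hgdec.2 x)
      have h9 : φ x + ((-B : ℝ) : EReal) + (B : EReal) = φ x := by
        rw [add_assoc, ← EReal.coe_add, neg_add_cancel, EReal.coe_zero, add_zero]
      simp only at h8
      rw [h9] at h8
      exact h8
    refine (hall _ hg' hdec' h hh).congr fun j => ?_
    rw [← hMs _ (hg' j) _ (hg' j), hPSadd (g j) (hg j) B (by rw [hPS]; exact hg' j)]
  -- the shifted sequence
  have hf' : ∀ j, (fun x => f j x + -B) ∈ T.PS := fun j => hPSadd' _ (by rw [hPS]; exact hf j) (-B)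
  have hfdec' : DecTo (fun j x => f j x + -B) (fun x => φ x + ((-B : ℝ) : EReal)) := by
    refine ⟨fun j x => by simpa using hdec.1 j x, fun x => ?_⟩
    exact Z2_add_cont (-B) (hdec.2 x)
  have hneg : ∀ j x, f j x + -B ≤ 0 := by
    intro j x
    have := hle j x
    linarith
  refine hF12 X T _ μ cd hDMA (fun j x => f j x + -B) hf' hfdec' hneg ?_
  obtain ⟨x0, hx0⟩ := hφ
  have hanti : Antitone (fun j => ((f j x0 : ℝ) : EReal)) := by
    apply antitone_nat_of_succ_le
    intro j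
    exact EReal.coe_le_coe_iff.2 (hdec.1 j x0)
  have hlow : ∀ j, φ x0 ≤ ((f j x0 : ℝ) : EReal) := fun j => hanti.le_of_tendsto (hdec.2 x0) j
  have hreal : ∃ a : ℝ, φ x0 = (a : EReal) := by
    have ht : φ x0 ≠ ⊤ := by
      intro ht
      have := hlow 0
      rw [ht] at this
      exact EReal.coe_ne_top _ (top_le_iff.1 this)
    exact ⟨(φ x0).toReal, (EReal.coe_toReal ht hx0).symm⟩
  obtain ⟨a, ha⟩ := hreal
  have hla : ∀ j, a ≤ f j x0 := by
    intro j
    have := hlow j
    rw [ha] at this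
    exact EReal.coe_le_coe_iff.1 this
  obtain ⟨C, hC⟩ := hH1 X K.toKS (fun j x => f j x + -B)
    (fun j => by rw [← hC0]; exact T.ps_c0 (hf' j)) hfdec'.1 hneg
    ⟨x0, a + -B, fun j => by have := hla j; linarith⟩
  refine ⟨C, fun j => ?_⟩
  rw [hMs _ h0 _ h0]
  exact hC j

end

end MAP
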