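import Pool.Agent.helper43.MA.K3

/-!
# Project ma, module K4: convolutions in two holomorphic charts are close.
-/

set_option autoImplicit false

open MeasureTheory Set Filter Topology Complex
open scoped ContDiff Real

namespace MAP

noncomputable section

theorem K4_nsq_le (x : C2) : nsq x ≤ 2 * ‖x‖ ^ 2 := by
  unfold nsq
  have h1 : ‖x.1‖ ≤ ‖x‖ := norm_fst_le x
  have h2 : ‖x.2‖ ≤ ‖x‖ := norm_snd_le x
  have h3 := norm_nonneg x.1
  have h4 := norm_nonneg x.2
  nlinarith

theorem K4_nsq_add (x y : C2) (a b : ℝ) (ha : 0 ≤ a) (hb : 0 ≤ b) (hx : nsq x ≤ a ^ 2)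
    (hy : nsq y ≤ b ^ 2) : nsq (x + y) ≤ (a + b) ^ 2 := by
  have h1 : ‖x.1 + y.1‖ ≤ ‖x.1‖ + ‖y.1‖ := norm_add_le _ _
  have h2 : ‖x.2 + y.2‖ ≤ ‖x.2‖ + ‖y.2‖ := norm_add_le _ _
  have hx' : ‖x.1‖ ^ 2 + ‖x.2‖ ^ 2 ≤ a ^ 2 := hx
  have hy' : ‖y.1‖ ^ 2 + ‖y.2‖ ^ 2 ≤ b ^ 2 := hy
  have n1 := norm_nonneg x.1
  have n2 := norm_nonneg x.2
  have n3 := norm_nonneg y.1
  have n4 := norm_nonneg y.2
  have hcs : ‖x.1‖ * ‖y.1‖ + ‖x.2‖ * ‖y.2‖ ≤ a * b := by
    apply abs_le_of_sq_le_sq' _ (mul_nonneg ha hb) |>.2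
    have : (‖x.1‖ * ‖y.1‖ + ‖x.2‖ * ‖y.2‖) ^ 2 ≤
        (‖x.1‖ ^ 2 + ‖x.2‖ ^ 2) * (‖y.1‖ ^ 2 + ‖y.2‖ ^ 2) := by
      nlinarith [sq_nonneg (‖x.1‖ * ‖y.2‖ - ‖x.2‖ * ‖y.1‖)]
    refine this.trans ?_
    rw [mul_pow]
    exact mul_le_mul hx' hy' (by positivity) (by positivity)
  have h3 : ‖x.1 + y.1‖ ^ 2 ≤ (‖x.1‖ + ‖y.1‖) ^ 2 := pow_le_pow_left₀ (norm_nonneg _) h1 2
  have h4 : ‖x.2 + y.2‖ ^ 2 ≤ (‖x.2‖ + ‖y.2‖) ^ 2 := pow_le_pow_left₀ (norm_nonneg _) h2 2
  show ‖x.1 + y.1‖ ^ 2 + ‖x.2 + y.2‖ ^ 2 ≤ (a + b) ^ 2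
  nlinarith

theorem K4_nsq_smulr (t : ℝ) (x : C2) : nsq (t • x) = t ^ 2 * nsq x := by
  unfold nsq
  rw [Prod.smul_fst, Prod.smul_snd, norm_smul, norm_smul, Real.norm_eq_abs, mul_pow, mul_pow, sq_abs]
  ring

theorem K4_meas_bal (c : C2) (r : ℝ) : MeasurableSet (bal c r) :=
  (isOpen_lt (K3_nsq_cont.comp (continuous_id.sub continuous_const)) continuous_const).measurableSet

theorem K4_meas_cbal (c : C2) (r : ℝ) : MeasurableSet (cbal c r) :=
  (K3_cbal_compact c r).isClosed.measurableSet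

/-- measurability of a PshB function on measurable subsets -/
theorem K4_meas {U S : Set C2} {u : C2 → ℝ} (hu : PshB U u) (hS : MeasurableSet S) (hSU : S ⊆ U) :
    Measurable (S.indicator u) := by
  have h1 : UpperSemicontinuousOn u S := hu.1.mono hSU
  have h2 : Measurable (S.domRestrict u) := (upperSemicontinuousOn_iff_restrict.2 h1).measurable
  refine measurable_of_restrict_of_restrict_compl hS ?_ ?_
  · have : S.domRestrict (S.indicator u) = S.domRestrict u := by
      funext x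
      simp [Set.domRestrict]
    rw [this]
    exact h2
  · have : Sᶜ.domRestrict (S.indicator u) = fun _ => 0 := by
      funext x
      have hx : (x : C2) ∉ S := x.2
      simp [Set.domRestrict, hx]
    rw [this]
    exact measurable_const

/-- scaling of ball integrals -/
theorem K4_scale (h : C2 → ℝ) (x : C2) (r : ℝ) (hr : 0 < r) :
    ∫ y in bal 0 1, h (x + r • y) = (r ^ 4)⁻¹ * ∫ y in bal x r, h y := by
  rw [← integral_indicator (K4_meas_bal 0 1), ← integral_indicator (K4_meas_bal x r)]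
  have h1 : (fun y => (bal 0 1).indicator (fun y => h (x + r • y)) y) =
      fun y => (fun z => (bal x r).indicator h (x + z)) (r • y) := by
    funext y
    have hiff : y ∈ bal 0 1 ↔ x + r • y ∈ bal x r := by
      show nsq (y - 0) < 1 ^ 2 ↔ nsq (x + r • y - x) < r ^ 2
      rw [sub_zero, add_sub_cancel_left, K4_nsq_smulr, one_pow]
      have hr2 : 0 < r ^ 2 := by positivity
      constructor
      · intro h3; nlinarith
      · intro h3; nlinarith
    by_cases hy : y ∈ bal 0 1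
    · simp only [indicator_of_mem hy, indicator_of_mem (hiff.1 hy)]
    · simp only [indicator_of_notMem hy, indicator_of_notMem (fun h3 => hy (hiff.2 h3))]
  have hfr : Module.finrank ℝ C2 = 4 := by
    rw [Module.finrank_prod, Complex.finrank_real_complex]
  have : (volume : Measure C2).IsAddHaarMeasure :=
    Measure.prod.instIsAddHaarMeasure (volume : Measure ℂ) (volume : Measure ℂ)
  rw [h1, Measure.integral_comp_smul (volume : Measure C2)
      (fun z => (bal x r).indicator h (x + z)) r,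
    integral_add_left_eq_self (fun z => (bal x r).indicator h z) x, hfr,
    abs_of_pos (by positivity), smul_eq_mul]

/-- rotation invariance -/
theorem K4_rot (h : C2 → ℝ) (ζ : ℂ) (hζ : ‖ζ‖ = 1) :
    ∫ y in bal 0 1, h (ζ • y) = ∫ y in bal 0 1, h y := by
  rw [← integral_indicator (K4_meas_bal 0 1), ← integral_indicator (K4_meas_bal 0 1)]
  have h1 : (fun y => (bal 0 1).indicator (fun y => h (ζ • y)) y) =
      fun y => (bal 0 1).indicator h (ζ • y) := by
    funext y
    have hiff : y ∈ bal 0 1 ↔ ζ • y ∈ bal 0 1 := by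
      show nsq (y - 0) < 1 ^ 2 ↔ nsq (ζ • y - 0) < 1 ^ 2
      rw [sub_zero, sub_zero, K3_nsq_smul, hζ, one_pow, one_mul]
    by_cases hy : y ∈ bal 0 1
    · simp only [indicator_of_mem hy, indicator_of_mem (hiff.1 hy)]
    · simp only [indicator_of_notMem hy, indicator_of_notMem (fun h3 => hy (hiff.2 h3))]
  have hmp1 : MeasurePreserving (fun z : ℂ => ζ * z) volume volume := by
    have h2 := (rotation (⟨ζ, by simp [Submonoid.unitSphere, hζ]⟩ : Circle)).measurePreserving
    exact h2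
  have hmp : MeasurePreserving (fun y : C2 => ζ • y) volume volume := by
    have h3 := hmp1.prod hmp1
    exact h3
  have hemb : MeasurableEmbedding (fun y : C2 => ζ • y) := by
    have hζ0 : ζ ≠ 0 := by
      rintro rfl
      simp at hζ
    exact (Homeomorph.smulOfNeZero ζ hζ0).measurableEmbedding
  rw [h1]
  exact hmp.integral_comp hemb _

theorem K4_vol_lt_top (c : C2) (r : ℝ) : volume (bal c r) < ⊤ := by
  refine lt_of_le_of_lt (measure_mono ?_) (K3_cbal_compact c r).measure_lt_top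
  intro x hx
  exact le_of_lt (show nsq (x - c) < r ^ 2 from hx)

theorem K4_disc {x ξ : C2} {r : ℝ} (h : nsq ξ ≤ r ^ 2) : disc x ξ ⊆ cbal x r := by
  rintro y ⟨ζ, hζ, rfl⟩
  show nsq (x + ζ • ξ - x) ≤ r ^ 2
  rw [add_sub_cancel_left, K3_nsq_smul]
  have h1 := K3_nsq_nonneg ξ
  have h2 := norm_nonneg ζ
  have h3 : ‖ζ‖ ^ 2 ≤ 1 := by nlinarith
  nlinarith

theorem K4_mem {x y : C2} {r : ℝ} (h : nsq y ≤ 1) : x + r • y ∈ cbal x r := by
  show nsq (x + r • y - x) ≤ r ^ 2
  rw [add_sub_cancel_left, K4_nsq_smulr]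
  have h1 := K3_nsq_nonneg y
  nlinarith [sq_nonneg r]

/-- bounded measurable functions are integrable on finite measure sets -/
theorem K4_integrableOn {w : C2 → ℝ} (hw : Measurable w) {m : ℝ} (hb : ∀ y, |w y| ≤ m) (S : Set C2)
    (hS : volume S < ⊤) : IntegrableOn w S := by
  refine Measure.integrableOn_of_bounded (M := m) hS.ne hw.aestronglyMeasurable ?_
  exact Filter.Eventually.of_forall fun y => by rw [Real.norm_eq_abs]; exact hb y

/-- sub-mean value property over balls -/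
theorem K4_ballmean {U : Set C2} {u : C2 → ℝ} (hu : PshB U u) (x : C2) (r : ℝ) 
    (hsub : cbal x r ⊆ U) :
    u x * volume.real (bal (0 : C2) 1) ≤ ∫ y in bal 0 1, u (x + r • y) := by
  set w : C2 → ℝ := (cbal x r).indicator u with hw
  have hwm : Measurable w := K4_meas hu (K4_meas_cbal x r) hsub
  obtain ⟨m, hm⟩ := hu.2.1 (cbal x r) hsub (K3_cbal_compact x r)
  have hwb : ∀ y, |w y| ≤ |m| := by
    intro y
    by_cases hy : y ∈ cbal x r
    · rw [hw, indicator_of_mem hy]
      exact (hm y hy).trans (le_abs_self m)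
    · rw [hw, indicator_of_notMem hy]
      simp
  have hwu : ∀ y : C2, nsq y ≤ 1 → w (x + r • y) = u (x + r • y) := by
    intro y hy
    rw [hw, indicator_of_mem (K4_mem hy)]
  have hb1 : ∀ y ∈ bal (0 : C2) 1, nsq y ≤ 1 := by
    intro y hy
    have h1 : nsq (y - 0) < 1 ^ 2 := hy
    rw [sub_zero, one_pow] at h1
    exact h1.le
  have hfin : IsFiniteMeasure (volume.restrict (bal (0 : C2) 1)) :=
    ⟨by rw [Measure.restrict_apply_univ]; exact K4_vol_lt_top 0 1⟩
  have hcm : Measurable (Function.uncurry fun (y : C2) (θ : ℝ) => w (x + r • (cexp (θ * I) • y))) := by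
    refine hwm.comp ?_
    have hc : Continuous (fun p : C2 × ℝ => x + r • (cexp (p.2 * I) • p.1)) := by fun_prop
    exact hc.measurable
  have hprod : Integrable (Function.uncurry fun (y : C2) (θ : ℝ) => w (x + r • (cexp (θ * I) • y)))
      ((volume.restrict (bal (0 : C2) 1)).prod (volume.restrict (Ioc 0 (2 * π)))) := by
    refine Integrable.of_bound hcm.aestronglyMeasurable |m| ?_
    exact Filter.Eventually.of_forall fun p => by rw [Real.norm_eq_abs]; exact hwb _
  have hswap := integral_integral_swap hprod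
  have hJ : ∀ θ : ℝ, ∫ y in bal 0 1, w (x + r • (cexp (θ * I) • y)) = ∫ y in bal 0 1, w (x + r • y) := by
    intro θ
    exact K4_rot (fun y => w (x + r • y)) _ (Complex.norm_exp_ofReal_mul_I θ)
  have h2π : (0 : ℝ) ≤ 2 * π := by positivity
  have hR : ∫ θ in Ioc 0 (2 * π), ∫ y in bal 0 1, w (x + r • (cexp (θ * I) • y)) =
      2 * π * ∫ y in bal 0 1, w (x + r • y) := by
    simp_rw [hJ]
    rw [setIntegral_const, smul_eq_mul]
    congr 1
    simp [Measure.real, Real.pi_pos.le]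
  have hmean : ∀ y ∈ bal (0 : C2) 1, u x ≤ (2 * π)⁻¹ * ∫ θ in Ioc 0 (2 * π), w (x + r • (cexp (θ * I) • y)) := by
    intro y hy
    have hy1 := hb1 y hy
    have hd : disc x (r • y) ⊆ U := by
      refine (K4_disc ?_).trans hsub
      rw [K4_nsq_smulr]
      nlinarith [sq_nonneg r]
    refine (hu.2.2 x (r • y) hd).trans (le_of_eq ?_)
    unfold mean
    rw [intervalIntegral.integral_of_le h2π]
    congr 1
    refine setIntegral_congr_fun measurableSet_Ioc fun θ _ => ?_
    show u (x + cexp (θ * I) • r • y) = w (x + r • (cexp (θ * I) • y))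
    rw [hwu, smul_comm]
    rw [K3_nsq_smul, Complex.norm_exp_ofReal_mul_I, one_pow, one_mul]
    exact hy1
  have h1 : ∫ y in bal (0 : C2) 1, u x ≤
      ∫ y in bal (0 : C2) 1, (2 * π)⁻¹ * ∫ θ in Ioc 0 (2 * π), w (x + r • (cexp (θ * I) • y)) := by
    refine setIntegral_mono_on (integrable_const _) ?_ (K4_meas_bal 0 1) hmean
    exact (hprod.integral_prod_left).const_mul _
  rw [setIntegral_const, smul_eq_mul, mul_comm] at h1
  refine h1.trans (le_of_eq ?_)
  rw [integral_const_mul, hswap, hR, ← mul_assoc, inv_mul_cancel₀ (by positivity), one_mul]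
  exact setIntegral_congr_fun (K4_meas_bal 0 1) fun y hy => hwu y (hb1 y hy)

/-- a kernel is bounded -/
theorem K4_bdd {χ : C2 → ℝ} (hχ : IsKer χ) : ∃ C : ℝ, 0 ≤ C ∧ ∀ y, χ y ≤ C := by
  obtain ⟨C, hC⟩ := (K3_cbal_compact 0 1).exists_bound_of_continuousOn
    (hχ.1.continuous.continuousOn (s := cbal 0 1))
  refine ⟨|C|, abs_nonneg _, fun y => ?_⟩
  by_cases hy : 1 ≤ nsq y
  · rw [hχ.2.2.1 y hy]
    exact abs_nonneg _
  · have h1 : y ∈ cbal (0 : C2) 1 := by
      show nsq (y - 0) ≤ 1 ^ 2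
      rw [sub_zero, one_pow]
      exact (not_le.1 hy).le
    have h2 := hC y h1
    rw [Real.norm_eq_abs] at h2
    exact (le_abs_self _).trans (h2.trans (le_abs_self _))

theorem K4_compactSupport {χ : C2 → ℝ} (hχ : IsKer χ) : HasCompactSupport χ := by
  refine HasCompactSupport.intro (K3_cbal_compact 0 1) fun y hy => ?_
  refine hχ.2.2.1 y ?_
  by_contra h
  refine hy ?_
  show nsq (y - 0) ≤ 1 ^ 2
  rw [sub_zero, one_pow]
  exact (not_le.1 h).le

theorem K4_ker_int {χ : C2 → ℝ} (hχ : IsKer χ) : Integrable χ :=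
  hχ.1.continuous.integrable_of_hasCompactSupport (K4_compactSupport hχ)

/-- the main estimate -/
theorem K4_main {χ : C2 → ℝ} (hχ : IsKer χ) : ∃ C : ℝ, 0 ≤ C ∧ ∀ (U : Set C2) (u : C2 → ℝ),
    PshB U u → ∀ (z : C2) (δ M : ℝ), 0 < δ → cbal z (3 * δ) ⊆ U → (∀ y ∈ cbal z (3 * δ), u y ≤ M) →
    cv χ u δ z ≤ M ∧ ∀ y0 ∈ cbal z δ, M - cv χ u δ z ≤ C * (M - u y0) := by
  obtain ⟨Cχ, hCχ0, hCχ⟩ := K4_bdd hχ
  refine ⟨16 * Cχ * volume.real (bal (0 : C2) 1), by positivity, ?_⟩
  intro U u hu z δ M hδ hsub hM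
  have hsub1 : ∀ y : C2, nsq y ≤ 1 → z + δ • y ∈ cbal z (3 * δ) := by
    intro y hy
    have h1 : nsq (z + δ • y - z) ≤ δ ^ 2 := K4_mem (x := z) (r := δ) hy
    show nsq (z + δ • y - z) ≤ (3 * δ) ^ 2
    nlinarith
  set w : C2 → ℝ := (cbal z (3 * δ)).indicator u with hw
  have hwm : Measurable w := K4_meas hu (K4_meas_cbal _ _) hsub
  obtain ⟨m, hm⟩ := hu.2.1 (cbal z (3 * δ)) hsub (K3_cbal_compact _ _)
  have hwb : ∀ y, |w y| ≤ |m| := by
    intro y
    by_cases hy : y ∈ cbal z (3 * δ)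
    · rw [hw, indicator_of_mem hy]
      exact (hm y hy).trans (le_abs_self m)
    · rw [hw, indicator_of_notMem hy]
      simp
  have hwu : ∀ y ∈ cbal z (3 * δ), w y = u y := fun y hy => by rw [hw, indicator_of_mem hy]
  have hcv : cv χ u δ z = ∫ y, χ y * w (z + δ • y) := by
    unfold cv
    congr 1
    funext y
    by_cases hy : 1 ≤ nsq y
    · rw [hχ.2.2.1 y hy, zero_mul, zero_mul]
    · rw [hwu _ (hsub1 y (not_le.1 hy).le)]
  have hwc : Measurable fun y : C2 => w (z + δ • y) := by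
    refine hwm.comp ?_
    have hc : Continuous (fun y : C2 => z + δ • y) := by fun_prop
    exact hc.measurable
  have hint : Integrable fun y => χ y * w (z + δ • y) := by
    refine (K4_ker_int hχ).mul_bdd (c := |m|) hwc.aestronglyMeasurable ?_
    exact Filter.Eventually.of_forall fun y => by rw [Real.norm_eq_abs]; exact hwb _
  have hdiff : M - cv χ u δ z = ∫ y, χ y * (M - w (z + δ • y)) := by
    have h1 : ∫ y, χ y * (M - w (z + δ • y)) = (∫ y, χ y * M) - ∫ y, χ y * w (z + δ • y) := by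
      rw [← integral_sub ((K4_ker_int hχ).mul_const M) hint]
      congr 1
      funext y
      ring
    rw [h1, integral_mul_const, hχ.2.2.2.1, one_mul, hcv]
  have hpos : ∀ y : C2, nsq y ≤ 1 → 0 ≤ M - w (z + δ • y) := by
    intro y hy
    have h1 := hsub1 y hy
    rw [hwu _ h1]
    exact sub_nonneg.2 (hM _ h1)
  have hb1 : ∀ y ∈ bal (0 : C2) 1, nsq y ≤ 1 := by
    intro y hy
    have h1 : nsq (y - 0) < 1 ^ 2 := hy
    rw [sub_zero, one_pow] at h1
    exact h1.le
  constructor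
  · have h1 : 0 ≤ M - cv χ u δ z := by
      rw [hdiff]
      refine integral_nonneg fun y => ?_
      by_cases hy : 1 ≤ nsq y
      · show 0 ≤ χ y * (M - w (z + δ • y))
        rw [hχ.2.2.1 y hy, zero_mul]
      · exact mul_nonneg (hχ.2.1 y) (hpos y (not_le.1 hy).le)
    linarith
  · intro y0 hy0
    have hMw : Measurable fun y => M - w y := measurable_const.sub hwm
    have hMb : ∀ y, |M - w y| ≤ |M| + |m| := fun y => (abs_sub _ _).trans (by linarith [hwb y])
    have s1 : M - cv χ u δ z ≤ Cχ * ∫ y in bal (0 : C2) 1, (M - w (z + δ • y)) := by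
      rw [hdiff, ← integral_const_mul]
      have h1 : ∫ y, χ y * (M - w (z + δ • y)) = ∫ y in bal (0 : C2) 1, χ y * (M - w (z + δ • y)) := by
        symm
        refine setIntegral_eq_integral_of_forall_compl_eq_zero fun y hy => ?_
        have hy' : 1 ≤ nsq y := by
          by_contra h
          refine hy ?_
          show nsq (y - 0) < 1 ^ 2
          rw [sub_zero, one_pow]
          exact not_le.1 h
        rw [hχ.2.2.1 y hy', zero_mul]
      rw [h1]
      have hI : IntegrableOn (fun y : C2 => M - w (z + δ • y)) (bal 0 1) :=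
        K4_integrableOn (w := fun y : C2 => M - w (z + δ • y)) (measurable_const.sub hwc)
          (m := |M| + |m|) (fun y => hMb _) _ (K4_vol_lt_top 0 1)
      refine setIntegral_mono_on ?_ (hI.const_mul _) (K4_meas_bal 0 1) ?_
      · have : (fun y => χ y * (M - w (z + δ • y))) = fun y => χ y * M - χ y * w (z + δ • y) := by
          funext y; ring
        rw [this]
        exact (((K4_ker_int hχ).mul_const M).sub hint).integrableOn
      · intro y hy
        exact mul_le_mul_of_nonneg_right (hCχ y) (hpos y (hb1 y hy))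
    have s2 : ∫ y in bal (0 : C2) 1, (M - w (z + δ • y)) ≤
        16 * ∫ y in bal (0 : C2) 1, (M - w (y0 + (2 * δ) • y)) := by
      rw [K4_scale (fun y => M - w y) z δ hδ, K4_scale (fun y => M - w y) y0 (2 * δ) (by positivity)]
      have hmono : ∫ y in bal z δ, (M - w y) ≤ ∫ y in bal y0 (2 * δ), (M - w y) := by
        refine setIntegral_mono_set (K4_integrableOn hMw hMb _ (K4_vol_lt_top _ _)) ?_ ?_
        · refine (ae_restrict_iff' (K4_meas_bal _ _)).2 (Filter.Eventually.of_forall fun y hy => ?_)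
          have h1 : nsq (y - y0) < (2 * δ) ^ 2 := hy
          have h2 : nsq (y0 - z) ≤ δ ^ 2 := hy0
          have h3 := K4_nsq_add (y - y0) (y0 - z) (2 * δ) δ (by positivity) hδ.le h1.le h2
          have h4 : y ∈ cbal z (3 * δ) := by
            show nsq (y - z) ≤ (3 * δ) ^ 2
            rw [show y - z = y - y0 + (y0 - z) by abel, show 3 * δ = 2 * δ + δ by ring]
            exact h3
          show 0 ≤ M - w y
          rw [hwu y h4]
          exact sub_nonneg.2 (hM y h4)
        · refine LE.le.eventuallyLE (fun y hy => ?_)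
          have h1 : nsq (y - z) < δ ^ 2 := hy
          have h2 : nsq (y0 - z) ≤ δ ^ 2 := hy0
          show nsq (y - y0) < (2 * δ) ^ 2
          have hneg : nsq (z - y0) ≤ δ ^ 2 := by
            have : nsq (z - y0) = nsq (y0 - z) := by
              rw [← neg_sub y0 z]
              have := K4_nsq_smulr (-1) (y0 - z)
              rw [neg_one_smul] at this
              rw [this]; ring
            rw [this]; exact h2
          have hs := Real.sq_sqrt (K3_nsq_nonneg (y - z))
          have hs0 := Real.sqrt_nonneg (nsq (y - z))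
          have h3 := K4_nsq_add (y - z) (z - y0) (Real.sqrt (nsq (y - z))) δ hs0 hδ.le hs.ge hneg
          have h4 : Real.sqrt (nsq (y - z)) < δ := by
            rw [Real.sqrt_lt' hδ]; exact h1
          rw [show y - y0 = y - z + (z - y0) by abel]
          refine lt_of_le_of_lt h3 ?_
          nlinarith
      have hδ4 : 0 < (δ ^ 4)⁻¹ := by positivity
      have h16 : 16 * (((2 * δ) ^ 4)⁻¹ * ∫ y in bal y0 (2 * δ), (M - w y)) =
          (δ ^ 4)⁻¹ * ∫ y in bal y0 (2 * δ), (M - w y) := by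
        rw [← mul_assoc]
        congr 1
        rw [mul_pow]
        have : δ ^ 4 ≠ 0 := by positivity
        field_simp
        norm_num
      rw [h16]
      exact mul_le_mul_of_nonneg_left hmono hδ4.le
    have s3 : ∫ y in bal (0 : C2) 1, (M - w (y0 + (2 * δ) • y)) ≤
        volume.real (bal (0 : C2) 1) * (M - u y0) := by
      have hsub2 : cbal y0 (2 * δ) ⊆ cbal z (3 * δ) := by
        intro y hy
        have h1 : nsq (y - y0) ≤ (2 * δ) ^ 2 := hy
        have h2 : nsq (y0 - z) ≤ δ ^ 2 := hy0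
        have h3 := K4_nsq_add (y - y0) (y0 - z) (2 * δ) δ (by positivity) hδ.le h1 h2
        show nsq (y - z) ≤ (3 * δ) ^ 2
        rw [show y - z = y - y0 + (y0 - z) by abel, show 3 * δ = 2 * δ + δ by ring]
        exact h3
      have h1 := K4_ballmean hu y0 (2 * δ) (hsub2.trans hsub)
      have h2 : ∫ y in bal (0 : C2) 1, (M - w (y0 + (2 * δ) • y)) =
          volume.real (bal (0 : C2) 1) * M - ∫ y in bal (0 : C2) 1, u (y0 + (2 * δ) • y) := by
        have hfin : IsFiniteMeasure (volume.restrict (bal (0 : C2) 1)) :=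
          ⟨by rw [Measure.restrict_apply_univ]; exact K4_vol_lt_top 0 1⟩
        have hwc2 : Measurable fun y : C2 => w (y0 + (2 * δ) • y) := by
          refine hwm.comp ?_
          have hc : Continuous (fun y : C2 => y0 + (2 * δ) • y) := by fun_prop
          exact hc.measurable
        rw [integral_sub (integrable_const _)
          (K4_integrableOn hwc2 (fun y => hwb _) _ (K4_vol_lt_top 0 1)), setIntegral_const, smul_eq_mul]
        congr 1
        exact setIntegral_congr_fun (K4_meas_bal 0 1) fun y hy => hwu _ (hsub2 (K4_mem (hb1 y hy)))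
      rw [h2]
      nlinarith
    calc M - cv χ u δ z ≤ Cχ * ∫ y in bal (0 : C2) 1, (M - w (z + δ • y)) := s1
      _ ≤ Cχ * (16 * (volume.real (bal (0 : C2) 1) * (M - u y0))) := by
        refine mul_le_mul_of_nonneg_left (s2.trans ?_) hCχ0
        exact mul_le_mul_of_nonneg_left s3 (by norm_num)
      _ = 16 * Cχ * volume.real (bal (0 : C2) 1) * (M - u y0) := by ring

/-- uniform local Lipschitz constant near a compact set -/
theorem K4_lip (F : C2 → C2) (V K : Set C2) (hV : IsOpen V) (hF : ContDiffOn ℂ 1 F V)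
    (hK : IsCompact K) (hKV : K ⊆ V) : ∃ L d : ℝ, 1 ≤ L ∧ 0 < d ∧ ∀ x ∈ K, ∀ y, ‖y - x‖ < d →
      ‖F y - F x‖ ≤ L * ‖y - x‖ := by
  refine hK.induction_on (p := fun s => ∃ L d : ℝ, 1 ≤ L ∧ 0 < d ∧ ∀ x ∈ s, ∀ y, ‖y - x‖ < d →
      ‖F y - F x‖ ≤ L * ‖y - x‖) ?_ ?_ ?_ ?_
  · exact ⟨1, 1, le_rfl, one_pos, fun x hx => absurd hx (Set.notMem_empty x)⟩
  · rintro s t hst ⟨L, d, h1, h2, h3⟩
    exact ⟨L, d, h1, h2, fun x hx => h3 x (hst hx)⟩
  · rintro s t ⟨L, d, h1, h2, h3⟩ ⟨L', d', h1', h2', h3'⟩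
    refine ⟨max L L', min d d', h1.trans (le_max_left _ _), lt_min h2 h2', ?_⟩
    rintro x (hx | hx) y hy
    · exact (h3 x hx y (hy.trans_le (min_le_left _ _))).trans
        (mul_le_mul_of_nonneg_right (le_max_left _ _) (norm_nonneg _))
    · exact (h3' x hx y (hy.trans_le (min_le_right _ _))).trans
        (mul_le_mul_of_nonneg_right (le_max_right _ _) (norm_nonneg _))
  · intro x hx
    have hFx : ContDiffAt ℂ 1 F x := hF.contDiffAt (hV.mem_nhds (hKV hx))
    obtain ⟨L, t, ht, hL⟩ := hFx.exists_lipschitzOnWith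
    obtain ⟨ρ, hρ, hball⟩ := Metric.mem_nhds_iff.1 ht
    refine ⟨Metric.ball x (ρ / 2), mem_nhdsWithin_of_mem_nhds (Metric.ball_mem_nhds x (by positivity)),
      max 1 L, ρ / 2, le_max_left _ _, by positivity, ?_⟩
    intro x' hx' y hy
    have h1 : x' ∈ t := hball (Metric.ball_subset_ball (by linarith) hx')
    have h2 : y ∈ t := by
      apply hball
      rw [Metric.mem_ball] at hx' ⊢
      have h3 := dist_triangle y x' x
      rw [dist_eq_norm y x'] at h3
      linarith
    have h3 := hL.dist_le_mul y h2 x' h1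
    rw [dist_eq_norm, dist_eq_norm] at h3
    exact h3.trans (mul_le_mul_of_nonneg_right (le_max_right _ _) (norm_nonneg _))

theorem K4_norm_lt {x y : C2} {a d : ℝ} (ha : 0 ≤ a) (h : nsq (y - x) ≤ a ^ 2) (had : a < d) :
    ‖y - x‖ < d ∧ ‖y - x‖ ≤ a := by
  have h2 := K3_norm_le (y - x)
  have h3 : ‖y - x‖ ≤ a := abs_le_of_sq_le_sq' (by linarith) ha |>.2
  exact ⟨lt_of_le_of_lt h3 had, h3⟩

/-- sup over a small ball and its image -/
theorem K4_lipnsq {F : C2 → C2} {x y : C2} {L a : ℝ} (hL : 1 ≤ L) (ha : 0 ≤ a)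
    (h : ‖F y - F x‖ ≤ L * ‖y - x‖) (hy : ‖y - x‖ ≤ 3 * a) : nsq (F y - F x) ≤ (6 * L * a) ^ 2 := by
  have h1 := K4_nsq_le (F y - F x)
  have h2 : ‖F y - F x‖ ≤ L * (3 * a) := h.trans (mul_le_mul_of_nonneg_left hy (by linarith))
  have h3 := norm_nonneg (F y - F x)
  have h4 : ‖F y - F x‖ ^ 2 ≤ (L * (3 * a)) ^ 2 := pow_le_pow_left₀ h3 h2 2
  have h5 : 0 ≤ (L * a) ^ 2 := sq_nonneg _
  nlinarith

/-- K4 -/
theorem K4 (hK3 : K3_stmt) : K4_stmt := by
  constructor
  · intro χ U V K F G u ε hχ hU hV hF hG hFm hGm hGF hFG hu hv hK hKV hε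
    set v : C2 → ℝ := fun y => u (F y) with hvdef
    have hK' : IsCompact (F '' K) := hK.image_of_continuousOn (hF.continuousOn.mono hKV)
    have hKU : F '' K ⊆ U := by
      rintro _ ⟨x, hx, rfl⟩
      exact hFm (hKV hx)
    obtain ⟨C, hC0, hC⟩ := K4_main hχ
    obtain ⟨L1, d1, hL1, hd1, hlip1⟩ := K4_lip F V K hV hF hK hKV
    obtain ⟨L2, d2, hL2, hd2, hlip2⟩ := K4_lip G U (F '' K) hU hG hK' hKU
    obtain ⟨R1, C1, hR1, -, hC1V, hC1⟩ := K3_nbhd V K hV hK hKV
    obtain ⟨R2, C2', hR2, -, hC2U, hC2⟩ := K3_nbhd U (F '' K) hU hK' hKU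
    set L : ℝ := max L1 L2 with hL
    have hLL1 : L1 ≤ L := le_max_left _ _
    have hLL2 : L2 ≤ L := le_max_right _ _
    set A : ℝ := 6 * L with hA
    have hA1 : 1 ≤ A := by rw [hA]; linarith
    set ε' : ℝ := ε / (1 + C) with hε'
    have hε'0 : 0 < ε' := by rw [hε']; positivity
    have hε'C : (1 + C) * ε' = ε := by rw [hε']; field_simp
    obtain ⟨δ1, hδ1, hsup1⟩ := hK3 V K v A ε' hV hv hK hKV hA1 hε'0
    obtain ⟨δ2, hδ2, hsup2⟩ := hK3 U (F '' K) u A ε' hU hu hK' hKU hA1 hε'0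
    refine ⟨min (min δ1 δ2) (min (min (R1 / 3) (R2 / 3)) (min (d1 / 3) (d2 / 3))), by positivity, ?_⟩
    intro δ hδ hδlt x hx
    simp only [lt_min_iff] at hδlt
    obtain ⟨⟨e1, e2⟩, ⟨e3, e4⟩, e5, e6⟩ := hδlt
    have hxV := hKV hx
    have hzK : F x ∈ F '' K := ⟨x, hx, rfl⟩
    have hbx : cbal x (3 * δ) ⊆ V := by
      refine Subset.trans (fun y hy => hC1 x hx ?_) hC1V
      have h1 : nsq (y - x) ≤ (3 * δ) ^ 2 := hy
      show nsq (y - x) ≤ R1 ^ 2
      nlinarith
    have hbz : cbal (F x) (3 * δ) ⊆ U := by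
      refine Subset.trans (fun y hy => hC2 (F x) hzK ?_) hC2U
      have h1 : nsq (y - F x) ≤ (3 * δ) ^ 2 := hy
      show nsq (y - F x) ≤ R2 ^ 2
      nlinarith
    have hne : ∀ c : C2, (cbal c (3 * δ)).Nonempty := fun c => ⟨c, by
      show nsq (c - c) ≤ (3 * δ) ^ 2
      rw [sub_self]
      have : nsq (0 : C2) = 0 := by simp [nsq]
      rw [this]; positivity⟩
    obtain ⟨yv, hyv, hmv⟩ := (hv.1.mono hbx).exists_isMaxOn (hne x) (K3_cbal_compact x (3 * δ))
    obtain ⟨yu, hyu, hmu⟩ := (hu.1.mono hbz).exists_isMaxOn (hne (F x)) (K3_cbal_compact (F x) (3 * δ))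
    have hmv' : ∀ y ∈ cbal x (3 * δ), v y ≤ v yv := fun y hy => hmv hy
    have hmu' : ∀ y ∈ cbal (F x) (3 * δ), u y ≤ u yu := fun y hy => hmu hy
    have hyv' : nsq (yv - x) ≤ (3 * δ) ^ 2 := hyv
    have hyu' : nsq (yu - F x) ≤ (3 * δ) ^ 2 := hyu
    have hsmall : ∀ (c y : C2), nsq (y - c) ≤ (δ / A) ^ 2 → y ∈ cbal c δ := by
      intro c y hy
      show nsq (y - c) ≤ δ ^ 2
      refine hy.trans ?_
      have h1 : δ / A ≤ δ := div_le_self hδ.le hA1
      have h2 : 0 ≤ δ / A := by positivity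
      exact pow_le_pow_left₀ h2 h1 2
    have hsmall3 : ∀ (c y : C2), y ∈ cbal c δ → y ∈ cbal c (3 * δ) := by
      intro c y hy
      have h1 : nsq (y - c) ≤ δ ^ 2 := hy
      show nsq (y - c) ≤ (3 * δ) ^ 2
      nlinarith
    have h3A : (3 * δ) ^ 2 ≤ (A * δ) ^ 2 := by
      apply pow_le_pow_left₀ (by positivity)
      rw [hA]
      nlinarith
    -- values of the convolutions
    obtain ⟨au, bu⟩ := hC U u hu (F x) δ (u yu) hδ hbz hmu'
    obtain ⟨av, bv⟩ := hC V v hv x δ (v yv) hδ hbx hmv'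
    obtain ⟨yu2, hyu2, hu2⟩ := hsup2 δ hδ e2 (F x) hzK yu (hyu'.trans h3A)
    obtain ⟨yv2, hyv2, hv2⟩ := hsup1 δ hδ e1 x hx yv (hyv'.trans h3A)
    have cu : u yu - cv χ u δ (F x) ≤ C * ε' :=
      (bu yu2 (hsmall _ _ hyu2)).trans (mul_le_mul_of_nonneg_left (by linarith) hC0)
    have cv' : v yv - cv χ v δ x ≤ C * ε' :=
      (bv yv2 (hsmall _ _ hyv2)).trans (mul_le_mul_of_nonneg_left (by linarith) hC0)
    -- comparison of the maxima
    have m1 : v yv ≤ u yu + ε' := by
      obtain ⟨p1, p2⟩ := K4_norm_lt (by positivity) hyv' (show 3 * δ < d1 by linarith)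
      have p3 := hlip1 x hx yv p1
      have p4 := K4_lipnsq hL1 hδ.le p3 p2
      have p5 : nsq (F yv - F x) ≤ (A * δ) ^ 2 := by
        refine p4.trans (pow_le_pow_left₀ (by positivity) ?_ 2)
        rw [hA]
        nlinarith
      obtain ⟨y', hy', hu'⟩ := hsup2 δ hδ e2 (F x) hzK (F yv) p5
      have := hmu' y' (hsmall3 _ _ (hsmall _ _ hy'))
      show u (F yv) ≤ u yu + ε'
      linarith
    have m2 : u yu ≤ v yv + ε' := by
      obtain ⟨p1, p2⟩ := K4_norm_lt (by positivity) hyu' (show 3 * δ < d2 by linarith)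
      have p3 := hlip2 (F x) hzK yu p1
      have p4 := K4_lipnsq hL2 hδ.le p3 p2
      rw [hGF x hxV] at p4
      have p5 : nsq (G yu - x) ≤ (A * δ) ^ 2 := by
        refine p4.trans (pow_le_pow_left₀ (by positivity) ?_ 2)
        rw [hA]
        nlinarith
      obtain ⟨y', hy', hv'⟩ := hsup1 δ hδ e1 x hx (G yu) p5
      have h1 := hmv' y' (hsmall3 _ _ (hsmall _ _ hy'))
      have h2 : v (G yu) = u yu := by
        show u (F (G yu)) = u yu
        rw [hFG yu (hbz hyu)]
      linarith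
    rw [abs_le]
    constructor <;> nlinarith
  · intro χ U K H ε hχ hU hH hK hKU hε
    obtain ⟨R, L, hR, hL, hLU, hKL⟩ := K3_nbhd U K hU hK hKU
    have huc := hL.uniformContinuousOn_of_continuous (hH.mono hLU)
    rw [Metric.uniformContinuousOn_iff_le] at huc
    obtain ⟨d, hd, huc'⟩ := huc ε hε
    refine ⟨min R d, lt_min hR hd, ?_⟩
    intro δ hδ hδlt x hx
    obtain ⟨e1, e2⟩ := lt_min_iff.1 hδlt
    have hsub : cbal x δ ⊆ L := by
      intro y hy
      apply hKL x hx
      have h1 : nsq (y - x) ≤ δ ^ 2 := hy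
      show nsq (y - x) ≤ R ^ 2
      nlinarith
    have hxL : x ∈ L := hsub (by
      show nsq (x - x) ≤ δ ^ 2
      rw [sub_self]
      have : nsq (0 : C2) = 0 := by simp [nsq]
      rw [this]; positivity)
    have hb1 : ∀ y : C2, ¬ 1 ≤ nsq y → x + δ • y ∈ cbal x δ := fun y hy => K4_mem (not_le.1 hy).le
    have hint : Integrable fun y => χ y * H (x + δ • y) := by
      have h1 : IntegrableOn (fun y => χ y * H (x + δ • y)) (cbal 0 1) := by
        refine ContinuousOn.integrableOn_compact (K3_cbal_compact 0 1) ?_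
        refine hχ.1.continuous.continuousOn.mul ?_
        refine (hH.mono (hsub.trans hLU)).comp (by fun_prop) ?_
        intro y hy
        refine K4_mem ?_
        have h2 : nsq (y - 0) ≤ 1 ^ 2 := hy
        rwa [sub_zero, one_pow] at h2
      refine (integrableOn_iff_integrable_of_support_subset ?_).1 h1
      intro y hy
      by_contra hy'
      refine hy ?_
      have : 1 ≤ nsq y := by
        by_contra h
        refine hy' ?_
        show nsq (y - 0) ≤ 1 ^ 2
        rw [sub_zero, one_pow]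
        exact (not_le.1 h).le
      show χ y * H (x + δ • y) = 0
      rw [hχ.2.2.1 y this, zero_mul]
    have h1 : cv χ H δ x - H x = ∫ y, χ y * (H (x + δ • y) - H x) := by
      have h2 : ∫ y, χ y * (H (x + δ • y) - H x) = (∫ y, χ y * H (x + δ • y)) - ∫ y, χ y * H x := by
        rw [← integral_sub hint ((K4_ker_int hχ).mul_const _)]
        congr 1
        funext y
        ring
      rw [h2, integral_mul_const, hχ.2.2.2.1, one_mul]
      rfl
    rw [h1, ← Real.norm_eq_abs]
    have h3 : ∫ y, χ y * ε = ε := by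
      rw [integral_mul_const, hχ.2.2.2.1, one_mul]
    rw [← h3]
    refine norm_integral_le_of_norm_le ((K4_ker_int hχ).mul_const ε) ?_
    refine Filter.Eventually.of_forall fun y => ?_
    rw [norm_mul, Real.norm_of_nonneg (hχ.2.1 y)]
    by_cases hy : 1 ≤ nsq y
    · rw [hχ.2.2.1 y hy, zero_mul, zero_mul]
    · refine mul_le_mul_of_nonneg_left ?_ (hχ.2.1 y)
      have h4 := hb1 y hy
      have h5 := huc' (x + δ • y) (hsub h4) x hxL ?_
      · rwa [dist_eq_norm] at h5
      · rw [dist_eq_norm]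
        exact (K4_norm_lt hδ.le h4 e2).1.le

end

end MAP
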